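import Pool.Agent.Y692.QS.Pts
import Pool.Agent.Y692.QN.Fin

/-!
Project QT, task N4: the quadratic twists of `y² = x³ + b`.
-/

set_option autoImplicit false

namespace Pool.Agent.Y692.QTN4

open Pool.Agent.TH936.AC
open Pool.Agent.Y19.QT
open Pool.Agent.Y692.QN Pool.Agent.Y692.QS

/-! ### the ring of Eisenstein integers has class number one -/

theorem ei_mem (z : ℂ) : z ∈ toC.range ↔ ∃ x y : ℤ, z = x + y * wC := by
  constructor
  · rintro ⟨α, rfl⟩
    exact ⟨α.re, α.im, toC_apply α⟩
  · rintro ⟨x, y, rfl⟩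
    exact ⟨⟨x, y⟩, toC_apply ⟨x, y⟩⟩

theorem normSq_wC (a b : ℝ) : Complex.normSq ((a : ℂ) + (b : ℂ) * wC) = a ^ 2 - a * b + b ^ 2 := by
  have h3 : Real.sqrt 3 * Real.sqrt 3 = 3 := Real.mul_self_sqrt (by norm_num)
  have hre : ((a : ℂ) + (b : ℂ) * wC).re = a - b / 2 := by
    simp [wC]; ring
  have him : ((a : ℂ) + (b : ℂ) * wC).im = b * (Real.sqrt 3 / 2) := by
    simp [wC]
  rw [Complex.normSq_apply, hre, him]
  linear_combination (b ^ 2 / 4) * h3

theorem ei_qp : QP toC.range wC := by
  refine qp_of wC_im ei_mem (fun z => ?_) (fun z hz => ?_)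
  · set v : ℝ := z.im / wC.im with hv
    set u : ℝ := z.re + v / 2 with hu
    have hz : z = (u : ℂ) + (v : ℂ) * wC := by
      have h0 := wC_im.ne'
      have hre : ((u : ℂ) + (v : ℂ) * wC).re = z.re := by
        have : ((u : ℂ) + (v : ℂ) * wC).re = u - v / 2 := by simp [wC]; ring
        rw [this, hu]; ring
      have him : ((u : ℂ) + (v : ℂ) * wC).im = z.im := by
        have : ((u : ℂ) + (v : ℂ) * wC).im = v * wC.im := by simp
        rw [this, hv]
        field_simp
      exact Complex.ext hre.symm him.symm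
    refine ⟨(round u : ℂ) + (round v : ℂ) * wC, (ei_mem _).2 ⟨_, _, rfl⟩, ?_⟩
    have e : z - ((round u : ℂ) + (round v : ℂ) * wC) =
        (((u - round u : ℝ)) : ℂ) + (((v - round v : ℝ)) : ℂ) * wC := by
      rw [hz]; push_cast; ring
    rw [e, normSq_wC]
    have h1 := abs_le.1 (abs_sub_round u)
    have h2 := abs_le.1 (abs_sub_round v)
    nlinarith [h1.1, h1.2, h2.1, h2.2, sq_nonneg ((u - round u) + (v - round v)),
      sq_nonneg ((u - round u) - (v - round v)), mul_nonneg (sub_nonneg.2 h1.2) (sub_nonneg.2 h2.2),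
      mul_nonneg (sub_nonneg.2 h1.1) (sub_nonneg.2 h2.1),
      mul_nonneg (sub_nonneg.2 h1.1) (sub_nonneg.2 h2.2),
      mul_nonneg (sub_nonneg.2 h1.2) (sub_nonneg.2 h2.1),
      mul_nonneg (sub_nonneg.2 h1.1) (sub_nonneg.2 h1.2),
      mul_nonneg (sub_nonneg.2 h2.1) (sub_nonneg.2 h2.2)]
  · obtain ⟨α, rfl⟩ := hz
    refine ⟨(nr α).toNat, ?_⟩
    rw [toC_normSq]
    have : ((nr α).toNat : ℤ) = nr α := Int.toNat_of_nonneg (nr_nonneg α)
    exact_mod_cast this.symm

theorem ei_pid : IsPrincipalIdealRing Ei := by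
  have h := ei_qp.pid
  let e : Ei ≃+* toC.range := RingEquiv.ofBijective toC.rangeRestrict
    ⟨fun x y h => toC_inj (congrArg Subtype.val h), toC.rangeRestrict_surjective⟩
  exact IsPrincipalIdealRing.of_surjective e.symm e.symm.surjective

/-- primes `1 mod 3` are norms -/
theorem exists_pi {p : ℕ} (hp : p.Prime) (h3 : p % 3 = 1) : ∃ π : Ei, nr π = p := by
  have : Fact p.Prime := ⟨hp⟩
  have := ei_pid
  by_contra hcon
  push Not at hcon
  -- a cube root of unity modulo `p`
  obtain ⟨z, hz⟩ : ∃ z : ZMod p, z ^ 2 + z + 1 = 0 := by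
    have hcyc : IsCyclic (ZMod p)ˣ := inferInstance
    obtain ⟨g, hg⟩ := hcyc.exists_generator
    have ho : orderOf g = p - 1 := by
      rw [orderOf_eq_card_of_forall_mem_zpowers hg, Nat.card_eq_fintype_card, ZMod.card_units]
    have hp2 := hp.two_le
    have hne : g ^ ((p - 1) / 3) ≠ 1 := by
      intro h
      have h4 := orderOf_dvd_of_pow_eq_one h
      rw [ho] at h4
      have h6 := Nat.le_of_dvd (by omega) h4
      omega
    have hc : (g ^ ((p - 1) / 3)) ^ 3 = 1 := by
      rw [← pow_mul]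
      have : (p - 1) / 3 * 3 = p - 1 := by omega
      rw [this, ← ho, pow_orderOf_eq_one]
    refine ⟨((g ^ ((p - 1) / 3) : (ZMod p)ˣ) : ZMod p), ?_⟩
    set y : ZMod p := ((g ^ ((p - 1) / 3) : (ZMod p)ˣ) : ZMod p) with hy
    have h1 : y ^ 3 = 1 := by
      rw [hy, ← Units.val_pow_eq_pow_val, hc, Units.val_one]
    have h2 : y - 1 ≠ 0 := by
      intro h
      apply hne
      apply Units.ext
      rw [Units.val_one]
      exact sub_eq_zero.1 h
    apply mul_left_cancel₀ h2
    linear_combination h1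
  obtain ⟨n, hn⟩ := ZMod.intCast_surjective z
  have hdvd : (p : ℤ) ∣ n ^ 2 + n + 1 := by
    rw [← ZMod.intCast_zmod_eq_zero_iff_dvd _ p]
    push_cast
    rw [hn, hz]
  have hpp : Prime (p : ℤ) := Nat.prime_iff_prime_int.1 hp
  have hirr : Irreducible ((p : ℤ) : Ei) := by
    constructor
    · rw [Pool.Agent.Y692.QS.isUnit_iff, nr_int]
      have := hp.one_lt
      have h1 : (1 : ℤ) < p := by exact_mod_cast this
      nlinarith
    · intro a b hab
      have h1 : nr a * nr b = (p : ℤ) ^ 2 := by rw [← nr_mul, ← hab, nr_int]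
      rw [Pool.Agent.Y692.QS.isUnit_iff, Pool.Agent.Y692.QS.isUnit_iff]
      have h2 : (nr a).natAbs * (nr b).natAbs = p ^ 2 := by
        rw [← Int.natAbs_mul, h1, Int.natAbs_pow, Int.natAbs_natCast]
      have h3 : (nr a).natAbs ∣ p ^ 2 := ⟨_, h2.symm⟩
      obtain ⟨k, hk, hk2⟩ := (Nat.dvd_prime_pow hp).1 h3
      have ha := nr_nonneg a
      have hb := nr_nonneg b
      interval_cases k
      · left
        rw [pow_zero] at hk2
        omega
      · exfalso
        rw [pow_one] at hk2
        exact hcon a (by omega)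
      · right
        rw [hk2] at h2
        have h4 : 0 < p ^ 2 := pow_pos hp.pos 2
        have h5 : (nr b).natAbs = 1 := Nat.eq_of_mul_eq_mul_left h4 (by rw [h2, mul_one])
        omega
  have hprime : Prime ((p : ℤ) : Ei) := hirr.prime
  have hd2 : ((p : ℤ) : Ei) ∣ ((n : Ei) - w) * ((n : Ei) + 1 + w) := by
    have e : ((n : Ei) - w) * ((n : Ei) + 1 + w) = ((n ^ 2 + n + 1 : ℤ) : Ei) := by
      have h1 : ((n : Ei) - w) * ((n : Ei) + 1 + w) = (n : Ei) ^ 2 + n - w - w * w := by ring
      rw [h1, w_sq]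
      push_cast
      ring
    rw [e]
    exact int_dvd_int.2 hdvd
  rcases hprime.dvd_or_dvd hd2 with h | h
  · obtain ⟨-, h1⟩ := int_dvd.1 h
    have h2 : ((n : Ei) - w).im = -1 := by
      rw [QuadraticAlgebra.im_sub, QuadraticAlgebra.im_intCast, w_im]; ring
    rw [h2] at h1
    exact hpp.not_isUnit (isUnit_of_dvd_one (by simpa using h1))
  · obtain ⟨-, h1⟩ := int_dvd.1 h
    have h2 : ((n : Ei) + 1 + w).im = 1 := by
      rw [QuadraticAlgebra.im_add, QuadraticAlgebra.im_add, QuadraticAlgebra.im_intCast, w_im]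
      rfl
    rw [h2] at h1
    exact hpp.not_isUnit (isUnit_of_dvd_one h1)

/-! ### the character -/

theorem nr_dvd {k : ℤ} {α β : Ei} (h : (k : Ei) ∣ α - β) : k ∣ nr α - nr β := by
  rw [← int_dvd_int]
  push_cast
  rw [← mul_star, ← mul_star]
  have e : α * star α - β * star β = (α - β) * star α + β * (star (α - β)) := by
    rw [star_sub]; ring
  rw [e]
  refine dvd_add (Dvd.dvd.mul_right h _) (Dvd.dvd.mul_left ?_ _)
  obtain ⟨c, hc⟩ := h
  refine ⟨star c, ?_⟩
  rw [hc, star_mul, mul_comm]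
  congr 1
  simp

theorem cop_ei {α : Ei} {k : ℤ} : IsCoprime α (k : Ei) ↔ IsCoprime (nr α) k := by
  constructor
  · intro h
    have h1 : IsCoprime (star α) (k : Ei) := by
      have := h.map (starRingEnd Ei)
      rw [map_intCast] at this
      exact this
    have h2 := IsCoprime.mul_left h h1
    rw [mul_star] at h2
    obtain ⟨u, v, huv⟩ := h2
    refine ⟨u.re, v.re, ?_⟩
    have := congrArg QuadraticAlgebra.re huv
    rw [QuadraticAlgebra.re_add, mul_re, mul_re, QuadraticAlgebra.re_intCast,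
      QuadraticAlgebra.im_intCast, QuadraticAlgebra.re_intCast, QuadraticAlgebra.im_intCast] at this
    have e1 : (1 : Ei).re = 1 := rfl
    rw [e1] at this
    simpa using this
  · intro h
    have h1 : IsCoprime ((nr α : ℤ) : Ei) (k : Ei) := h.map (Int.castRingHom Ei)
    rw [← mul_star] at h1
    exact h1.of_mul_left_left

open Classical in
/-- the character of `y² = x³ + B` -/
noncomputable def th (B : ℤ) (κ : Ei → Ei) (α : Ei) : ℂ :=
  if IsCoprime (nr α) (36 * B) then
    ((jacobiSym B (nr α).natAbs : ℤ) : ℂ) * toC (κ (ns α) * star (ep α)) else 0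

section

variable {B : ℤ} {κ : Ei → Ei}

theorem cop_three {α : Ei} (h : IsCoprime (nr α) (36 * B)) : ¬ (3 : ℤ) ∣ nr α := by
  intro hd
  have h1 : IsCoprime (nr α) 3 := by
    have : (36 * B) = 3 * (12 * B) := by ring
    rw [this] at h
    exact h.of_mul_right_left
  have h2 := h1.symm
  rw [Prime.coprime_iff_not_dvd Int.prime_three] at h2
  exact h2 hd

theorem cop_four {α : Ei} (h : IsCoprime (nr α) (36 * B)) : IsCoprime (nr (ns α)) (4 * B) := by
  rw [nr_ns (cop_three h)]
  have : (36 * B) = 9 * (4 * B) := by ring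
  rw [this] at h
  exact h.of_mul_right_right

theorem cop_odd {α : Ei} (h : IsCoprime (nr α) (36 * B)) : Odd (nr α).natAbs := by
  have h1 : IsCoprime (nr α) 2 := by
    have : (36 * B) = 2 * (18 * B) := by ring
    rw [this] at h
    exact h.of_mul_right_left
  have h2 := h1.symm
  rw [Prime.coprime_iff_not_dvd Int.prime_two] at h2
  rw [Int.natAbs_odd]
  rwa [← Int.not_even_iff_odd, even_iff_two_dvd]

theorem th_of {α : Ei} (h : IsCoprime (nr α) (36 * B)) :
    th B κ α = ((jacobiSym B (nr α).natAbs : ℤ) : ℂ) * toC (κ (ns α) * star (ep α)) := if_pos h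

theorem th_mul (hκ : Kap (4 * B) κ) (α β : Ei) : th B κ (α * β) = th B κ α * th B κ β := by
  by_cases ha : IsCoprime (nr α) (36 * B)
  · by_cases hb : IsCoprime (nr β) (36 * B)
    · have hab : IsCoprime (nr (α * β)) (36 * B) := by
        rw [nr_mul]
        exact IsCoprime.mul_left ha hb
      rw [th_of ha, th_of hb, th_of hab, nr_mul, Int.natAbs_mul, ns_mul, ep_mul, star_mul]
      have n1 : NeZero (nr α).natAbs := ⟨(cop_odd ha).pos.ne'⟩
      have n2 : NeZero (nr β).natAbs := ⟨(cop_odd hb).pos.ne'⟩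
      rw [jacobiSym.mul_right, hκ.mul _ _ (cop_four ha) (cop_four hb) (ns_one (cop_three ha))
        (ns_one (cop_three hb))]
      simp only [map_mul]
      push_cast
      ring
    · have hab : ¬ IsCoprime (nr (α * β)) (36 * B) := by
        rw [nr_mul]
        exact fun h => hb h.of_mul_left_right
      unfold th
      rw [if_neg hab, if_neg hb, mul_zero]
  · have hab : ¬ IsCoprime (nr (α * β)) (36 * B) := by
      rw [nr_mul]
      exact fun h => ha h.of_mul_left_left
    unfold th
    rw [if_neg hab, if_neg ha, zero_mul]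

theorem th_per (hκ : Kap (4 * B) κ) {α β : Ei} (h : ((36 * B : ℤ) : Ei) ∣ α - β) :
    th B κ α = th B κ β := by
  have hn := nr_dvd h
  have hc : IsCoprime (nr α) (36 * B) ↔ IsCoprime (nr β) (36 * B) := by
    obtain ⟨c, hc⟩ := hn
    have : nr α = nr β + 36 * B * c := by linarith
    rw [this]
    exact IsCoprime.add_mul_left_left_iff
  by_cases ha : IsCoprime (nr α) (36 * B)
  · have hb := hc.1 ha
    rw [th_of ha, th_of hb]
    have hep : ep α = ep β := ep_per (dvd_trans (by
      have : ((36 * B : ℤ) : Ei) = 3 * ((12 * B : ℤ) : Ei) := by push_cast; ring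
      rw [this]
      exact dvd_mul_right _ _) h)
    have hj : jacobiSym B (nr α).natAbs = jacobiSym B (nr β).natAbs := by
      rw [jacobiSym.mod_right B (cop_odd ha), jacobiSym.mod_right B (cop_odd hb)]
      congr 1
      have h1 : (4 * B.natAbs : ℕ) ∣ (36 * B).natAbs := by
        rw [Int.natAbs_mul]
        exact Nat.mul_dvd_mul (by norm_num) dvd_rfl
      have h2 : ((4 * B.natAbs : ℕ) : ℤ) ∣ nr α - nr β :=
        dvd_trans (Int.natCast_dvd.2 h1) hn
      have h3 : ((nr α).natAbs : ℤ) = nr α := Int.natAbs_of_nonneg (nr_nonneg α)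
      have h4 : ((nr β).natAbs : ℤ) = nr β := Int.natAbs_of_nonneg (nr_nonneg β)
      have h5 : (nr β).natAbs ≡ (nr α).natAbs [MOD 4 * B.natAbs] := by
        rw [Nat.modEq_iff_dvd, h3, h4]
        exact h2
      exact h5.symm
    have hk : κ (ns α) = κ (ns β) := by
      refine hκ.per _ _ (cop_four ha) (cop_four hb) (ns_one (cop_three ha))
        (ns_one (cop_three hb)) ?_
      have e1 : ns α - ns β = star (ep α) * (α - β) := by
        unfold ns
        rw [hep]
        ring
      rw [e1]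
      refine Dvd.dvd.mul_left (dvd_trans (int_dvd_int.2 ?_) h) _
      exact ⟨1, by ring⟩
    rw [hj, hk, hep]
  · have hb : ¬ IsCoprime (nr β) (36 * B) := fun h => ha (hc.2 h)
    unfold th
    rw [if_neg ha, if_neg hb]

theorem th_zero (hκ : Kap (4 * B) κ) (α : Ei) : th B κ α = 0 ↔ ¬ IsCoprime (nr α) (36 * B) := by
  constructor
  · intro h hc
    rw [th_of hc] at h
    rcases mul_eq_zero.1 h with h1 | h1
    · have n1 : NeZero (nr α).natAbs := ⟨(cop_odd hc).pos.ne'⟩
      have h2 : jacobiSym B (nr α).natAbs = 0 := by exact_mod_cast h1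
      rw [jacobiSym.eq_zero_iff_not_coprime] at h2
      apply h2
      have h3 : ((nr α).natAbs : ℤ) = nr α := Int.natAbs_of_nonneg (nr_nonneg α)
      rw [h3]
      have h4 : IsCoprime (nr α) B := by
        have : (36 * B) = B * 36 := by ring
        rw [this] at hc
        exact hc.of_mul_right_left
      exact Int.isCoprime_iff_gcd_eq_one.1 h4.symm
    · rw [← map_zero toC] at h1
      have h2 := toC_inj h1
      rcases mul_eq_zero.1 h2 with h3 | h3
      · have h4 := hκ.cube _ (cop_four hc) (ns_one (cop_three hc))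
        rw [h3] at h4
        norm_num at h4
      · have h4 := (ep_cases α (cop_three hc)).2
        rw [h3, zero_mul] at h4
        exact zero_ne_one h4
  · intro h
    unfold th
    rw [if_neg h]

theorem kap_one (hκ : Kap (4 * B) κ) : κ 1 = 1 := by
  have h0 : IsCoprime (nr 1) (4 * B) := by
    rw [nr_one]
    exact isCoprime_one_left
  have h3 : (3 : Ei) ∣ 1 - 1 := by rw [sub_self]; exact dvd_zero _
  have h1 := hκ.mul 1 1 h0 h0 h3 h3
  have h2 := hκ.cube 1 h0 h3
  rw [mul_one] at h1
  have hne : κ 1 ≠ 0 := by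
    intro h
    rw [h] at h2
    norm_num at h2
  exact ((mul_eq_left₀ hne).1 h1.symm)

theorem th_unit (hκ : Kap (4 * B) κ) {u : Ei} (hu : IsUnit u) : th B κ u * toC u = 1 := by
  have h1 := Pool.Agent.Y692.QS.isUnit_iff.1 hu
  have hc : IsCoprime (nr u) (36 * B) := by
    rw [h1]
    exact isCoprime_one_left
  rw [th_of hc, h1, ns_unit hu, kap_one hκ, one_mul]
  have h2 : (1 : ℤ).natAbs = 1 := rfl
  rw [h2, jacobiSym.one_right, Int.cast_one, one_mul, ← map_mul]
  have h3 : star (ep u) * u = 1 := ns_unit hu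
  rw [h3, map_one]

theorem th_star (hκ : Kap (4 * B) κ) (α : Ei) : th B κ (star α) = (starRingEnd ℂ) (th B κ α) := by
  by_cases ha : IsCoprime (nr α) (36 * B)
  · have hb : IsCoprime (nr (star α)) (36 * B) := by rwa [nr_star]
    rw [th_of ha, th_of hb, nr_star, ns_star, hκ.str _ (cop_four ha) (ns_one (cop_three ha)),
      ep_star, map_mul (starRingEnd ℂ), ← toC_star, star_mul, mul_comm (star (star (ep α)))]
    congr 1
    exact (map_intCast (starRingEnd ℂ) _).symm
  · have hb : ¬ IsCoprime (nr (star α)) (36 * B) := by rwa [nr_star]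
    unfold th
    rw [if_neg ha, if_neg hb, map_zero]

/-- the value at inert primes -/
theorem th_inert (hκ : Kap (4 * B) κ) {p : ℕ} (hp : p.Prime) (h3 : p % 3 = 2)
    (hpB : ¬ (p : ℤ) ∣ 36 * B) : th B κ (p : Ei) = -1 := by
  have hpp : Prime (p : ℤ) := Nat.prime_iff_prime_int.1 hp
  have hn : nr (p : Ei) = (p : ℤ) ^ 2 := nr_nat p
  have hc1 : IsCoprime (p : ℤ) (36 * B) := (Prime.coprime_iff_not_dvd hpp).2 hpB
  have hc : IsCoprime (nr (p : Ei)) (36 * B) := by
    rw [hn]
    exact hc1.pow_left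
  have hep : ep (p : Ei) = -1 := by
    unfold ep
    have e1 : ((((p : Ei)).re : ℤ) : ZMod 3) = 2 := by
      rw [QuadraticAlgebra.re_natCast]
      have : ((p : ℤ) : ZMod 3) = ((2 : ℤ) : ZMod 3) := by
        rw [ZMod.intCast_eq_intCast_iff]
        show (p : ℤ) % 3 = 2 % 3
        omega
      rw [this]
      rfl
    have e2 : ((((p : Ei)).im : ℤ) : ZMod 3) = 0 := by
      rw [QuadraticAlgebra.im_natCast, Int.cast_zero]
    rw [e1, e2]
    decide
  have hns : ns (p : Ei) = -(p : Ei) := by
    unfold ns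
    rw [hep, star_neg, star_one]
    ring
  have hk1 : κ (ns (p : Ei)) = 1 := by
    have h1 := hκ.cube _ (cop_four hc) (ns_one (cop_three hc))
    have h2 := hκ.str _ (cop_four hc) (ns_one (cop_three hc))
    have h4 : star (ns (p : Ei)) = ns (p : Ei) := by
      rw [hns, star_neg]
      congr 1
    rw [h4] at h2
    rcases cube_cases h1 with h5 | h5 | h5
    · exact h5
    · rw [h5] at h2
      exact absurd h2 (by decide)
    · rw [h5] at h2
      exact absurd h2 (by decide)
  rw [th_of hc, hk1, hep, hn]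
  have hj : jacobiSym B ((p : ℤ) ^ 2).natAbs = 1 := by
    have e1 : ((p : ℤ) ^ 2).natAbs = p ^ 2 := by
      rw [Int.natAbs_pow, Int.natAbs_natCast]
    rw [e1, jacobiSym.pow_right]
    have h4 : IsCoprime (p : ℤ) B := by
      have : (36 * B) = B * 36 := by ring
      rw [this] at hc1
      exact hc1.of_mul_right_left
    exact jacobiSym.sq_one (Int.isCoprime_iff_gcd_eq_one.1 h4.symm)
  rw [hj, star_neg, star_one, one_mul, map_neg, map_one]
  push_cast
  ring

theorem sextic_af (B : ℤ) (hB : B ≠ 0) : ∃ (N : ℕ) (f : ℕ → ℂ), AF 0 B N f := by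
  obtain ⟨κ, hκ⟩ := Kap.exists (4 * B) (mul_ne_zero (by norm_num) hB)
  have h36 : 36 * B ≠ 0 := mul_ne_zero (by norm_num) hB
  have hmdvd : ∀ α : Ei, (((36 * B).natAbs : ℕ) : Ei) ∣ α → ((36 * B : ℤ) : Ei) ∣ α := by
    intro α h
    have h1 : ((((36 * B).natAbs : ℕ) : ℤ) : Ei) ∣ α := by rwa [Int.cast_natCast]
    rw [int_dvd] at h1 ⊢
    exact ⟨Int.natAbs_dvd.1 h1.1, Int.natAbs_dvd.1 h1.2⟩
  have hmcop : ∀ α : Ei, IsCoprime α (((36 * B).natAbs : ℕ) : Ei) ↔ IsCoprime (nr α) (36 * B) := by
    intro α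
    have h1 : IsCoprime α (((36 * B).natAbs : ℕ) : Ei) ↔
        IsCoprime (nr α) (((36 * B).natAbs : ℕ) : ℤ) := by
      rw [← cop_ei, Int.cast_natCast]
    rw [h1]
    rcases Int.natAbs_eq (36 * B) with h | h
    · conv_rhs => rw [h]
    · conv_rhs => rw [h]
      exact (IsCoprime.neg_right_iff _ _).symm
  refine af_of toC toC_inj (fun α => star α) toC_star ei_qp (D0 := 3) ?_ (m := (36 * B).natAbs)
    (θ := th B κ) (Int.natAbs_pos.2 h36) (th_mul hκ) (fun α β h => th_per hκ (hmdvd _ h))
    (fun α => ?_) (fun u hu => th_unit hκ hu) (th_star hκ) (36 * B).natAbs ?_ 0 B ?_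
  · have h3 : Real.sqrt 3 ^ 2 = 3 := Real.sq_sqrt (by norm_num)
    show 4 * (Real.sqrt 3 / 2) ^ 2 = ((3 : ℕ) : ℝ)
    push_cast
    linear_combination h3
  · rw [th_zero hκ, hmcop]
  · intro p p' hp hp' hno h3 hmod hlt
    have hp3 : p % 3 = 2 := by
      have h0 : p % 3 ≠ 0 := by
        intro h
        exact h3 ((Nat.prime_dvd_prime_iff_eq Nat.prime_three hp).1 (Nat.dvd_of_mod_eq_zero h) ▸
          dvd_rfl)
      have h1 : p % 3 ≠ 1 := by
        intro h
        obtain ⟨π, hπ⟩ := exists_pi hp h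
        apply hno π
        rw [toC_normSq, hπ]
        push_cast
        rfl
      omega
    refine th_inert hκ hp' (by omega) ?_
    intro hd
    have h4 : p' ∣ (36 * B).natAbs := Int.natCast_dvd.1 hd
    have := Nat.le_of_dvd (Int.natAbs_pos.2 h36) h4
    omega
  · intro p hp hgood
    have hpp : Prime (p : ℤ) := Nat.prime_iff_prime_int.1 hp
    have hg : ¬ (p : ℤ) ∣ 6 * B := by
      intro h
      apply hgood
      have : (p : ℤ) ∣ (6 * B) * (9 * B) := Dvd.dvd.mul_right h _
      convert this using 1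
      ring
    have hp2 : p ≠ 2 := by
      rintro rfl
      exact hg ⟨3 * B, by push_cast; ring⟩
    have hp3 : p ≠ 3 := by
      rintro rfl
      exact hg ⟨2 * B, by push_cast; ring⟩
    have hpB : ¬ (p : ℤ) ∣ B := fun h => hg (Dvd.dvd.mul_left h _)
    have h36p : ¬ (p : ℤ) ∣ 36 * B := by
      intro h
      have h1 : (p : ℤ) ∣ (6 * B) * 6 := by
        have : (6 * B) * 6 = 36 * B := by ring
        rw [this]
        exact h
      rcases hpp.dvd_or_dvd h1 with h2 | h2
      · exact hg h2
      · exact hg (Dvd.dvd.mul_right h2 _)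
    refine ⟨fun h => h36p (Int.natCast_dvd.2 h), ?_, ?_⟩
    · intro h
      exact hp3 ((Nat.prime_dvd_prime_iff_eq hp Nat.prime_three).1 h)
    · have h0 : p % 3 ≠ 0 := by
        intro h
        exact hp3 ((Nat.prime_dvd_prime_iff_eq Nat.prime_three hp).1 (Nat.dvd_of_mod_eq_zero h)).symm
      by_cases h3 : p % 3 = 2
      · left
        refine ⟨fun α h => ?_, ap_two B hp hp2 h3⟩
        rw [toC_normSq] at h
        have h5 : nr α = (p : ℤ) := by exact_mod_cast h
        have h6 := nr_mod α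
        rw [h5] at h6
        have h7 : ((p : ℤ) : ZMod 3) = 2 := by
          have : ((p : ℤ) : ZMod 3) = ((2 : ℤ) : ZMod 3) := by
            rw [ZMod.intCast_eq_intCast_iff]
            show (p : ℤ) % 3 = 2 % 3
            omega
          rw [this]
          rfl
        rw [h7] at h6
        generalize ((α.re : ℤ) : ZMod 3) = x at h6
        generalize ((α.im : ℤ) : ZMod 3) = y at h6
        revert x y
        decide
      · right
        have : Fact p.Prime := ⟨hp⟩
        obtain ⟨π, hπ⟩ := exists_pi hp (by omega)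
        have hcπ : IsCoprime (nr π) (36 * B) := by
          rw [hπ]
          exact (Prime.coprime_iff_not_dvd hpp).2 h36p
        refine ⟨ns π, ?_, ?_⟩
        · rw [toC_normSq, nr_ns (cop_three hcπ), hπ]
          push_cast
          rfl
        · have hcn : IsCoprime (nr (ns π)) (36 * B) := by
            rw [nr_ns (cop_three hcπ)]
            exact hcπ
          have hnn : ns (ns π) = ns π := ns_fix (ns_one (cop_three hcπ))
          have hepn : ep (ns π) = 1 := by
            have := ep_per (ns_one (cop_three hcπ))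
            rw [this]
            exact ep_unit isUnit_one
          have h4B : ¬ (p : ℤ) ∣ 4 * B := by
            intro h
            apply h36p
            have : (36 * B) = 9 * (4 * B) := by ring
            rw [this]
            exact Dvd.dvd.mul_left h _
          have hv := hκ.val p π hπ hp3 h4B
          have hap := ap_eq hπ hp3 hp2 hpB
          rw [hv] at hap
          have hth : th B κ (ns π) = toC (rho p (B : ZMod p) * κ (ns π)) := by
            rw [th_of hcn, hnn, hepn, star_one, mul_one, nr_ns (cop_three hcπ), hπ, Int.natAbs_natCast,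
              ← jacobiSym.legendreSym.to_jacobiSym, map_mul]
            congr 1
            exact (map_intCast toC _).symm
          have h8 := congrArg toC hap
          rw [map_add, toC_star, map_intCast] at h8
          rw [h8, hth, ← map_mul]

end

/-- **N4**: the quadratic twists of `y² = x³ + b` -/
theorem N4 (b : ℤ) (hb : b ≠ 0) : HasTwists 0 b ∧
    ∀ d : ℤ, Squarefree d → ∃ F : ℂ → ℂ, IsLFun (0 * d ^ 2) (b * d ^ 3) F := by
  have hab : 4 * (0 : ℤ) ^ 3 + 27 * b ^ 2 ≠ 0 := by
    have : 4 * (0 : ℤ) ^ 3 + 27 * b ^ 2 = 27 * b ^ 2 := by ring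
    rw [this]
    exact mul_ne_zero (by norm_num) (pow_ne_zero _ hb)
  refine ⟨T10_of 0 b hab fun g hg => ?_, fun d hd => ?_⟩
  · rw [zero_mul]
    exact sextic_af _ (mul_ne_zero hb (pow_ne_zero _ hg))
  · have h1 : b * d ^ 3 ≠ 0 := mul_ne_zero hb (pow_ne_zero _ hd.ne_zero)
    obtain ⟨N, f, hf⟩ := sextic_af _ h1
    rw [zero_mul]
    refine T13b 0 (b * d ^ 3) ?_ N f hf
    have : 4 * (0 : ℤ) ^ 3 + 27 * (b * d ^ 3) ^ 2 = 27 * (b * d ^ 3) ^ 2 := by ring
    rw [this]
    exact mul_ne_zero (by norm_num) (pow_ne_zero _ h1)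

end Pool.Agent.Y692.QTN4
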